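import Pool.Agent.K1H20.RL.Geo3

/-!
Degree of the dual variety of a reciprocal linear space: for a connected matroid `M(L)` the dual
variety of `L⁻¹` is a hypersurface of degree `2 ^ d * β(M(L))`.
-/

namespace Pool.Agent.Results.MP_0aec2a_ag.DualDegree

open MvPolynomial K1H20.RecDual

/-- Let `l 0, ..., l n` be linear forms on `ℂ^(d+1)` spanning its dual, with connected matroid.
The homogeneous ideal of the dual variety of the reciprocal linear space is generated by an
irreducible form `Δ` of degree `D = 2 ^ d * β`. -/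
theorem result (d n : ℕ) (l : Fin (n + 1) → Module.Dual ℂ (Fin (d + 1) → ℂ))
    (hspan : Submodule.span ℂ (Set.range l) = ⊤) (hconn : Connected l) :
    ∃ (D : ℕ) (Δ : MvPolynomial (Fin (n + 1)) ℂ), Δ.IsHomogeneous D ∧ Irreducible Δ ∧
      vanishingIdeal ℂ (dualCone (recipIdeal l)) = Ideal.span {Δ} ∧
      (1 ≤ n → vanishingIdeal ℂ (dualCone (recipIdeal l) \ {0}) = Ideal.span {Δ}) ∧
      (D : ℤ) = 2 ^ d * beta l :=
  final l hspan hconn

end Pool.Agent.Results.MP_0aec2a_ag.DualDegree
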